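import Pool.Agent.W528.HC.Stm2

/-!
# Task HC-AS: the arithmetic of the exponents, second version
-/

set_option autoImplicit false

namespace Pool.Agent.W903.HC.AS

open Finset Pool.Agent.W528.HC

theorem inv_mod (r s : ℕ) (hr : r.Prime) (hs : 0 < s) (hsr : s < r) : ∃ t, t * s % r = 1 := by
  have hc : s.Coprime r := by
    rw [Nat.coprime_comm, hr.coprime_iff_not_dvd]
    exact fun h => absurd (Nat.le_of_dvd hs h) (by omega)
  obtain ⟨t, _, ht⟩ := Nat.exists_mul_mod_eq_one_of_coprime hc hr.one_lt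
  exact ⟨t, by rw [mul_comm]; exact ht⟩

theorem cop_of (p k j : ℕ) (hp : p.Prime) (h : k * j % p = 1) : k.Coprime p := by
  rw [Nat.coprime_comm, hp.coprime_iff_not_dvd]
  intro h2
  have : k * j % p = 0 := Nat.mod_eq_zero_of_dvd (h2.mul_right j)
  omega

/-- the choice of the multiplier -/
theorem choice (p r : ℕ) (hp : p.Prime) (hr : r.Prime) (hne : p ≠ r) (j s : ℕ) (hj : 0 < j)
    (hjp : j < p) (hs : s < r) : ∃ j' : ℕ, j'.Coprime (p * r) ∧ j' * j % p = 1 ∧
      (s = 0 ∨ j' * s % r = 1) := by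
  have hco : r.Coprime p := (Nat.coprime_primes hr hp).2 hne.symm
  obtain ⟨jp, hjp1⟩ := inv_mod p j hp hj hjp
  obtain ⟨w, hw, hw2⟩ : ∃ w : ℕ, w.Coprime r ∧ (s = 0 ∨ w * s % r = 1) := by
    rcases Nat.eq_zero_or_pos s with h | h
    · exact ⟨1, Nat.coprime_one_left r, Or.inl h⟩
    · obtain ⟨t, ht⟩ := inv_mod r s hr h hs
      exact ⟨t, cop_of r t s hr ht, Or.inr ht⟩
  obtain ⟨k, hk1, hk2⟩ := Nat.chineseRemainder hco w jp
  have h1 : k * j % p = 1 := by
    have h2 : k * j ≡ jp * j [MOD p] := hk2.mul_right j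
    have h3 : k * j % p = jp * j % p := h2
    rw [h3]
    exact hjp1
  refine ⟨k, ?_, h1, ?_⟩
  · apply Nat.Coprime.mul_right
    · exact cop_of p k j hp h1
    · have h4 : Nat.gcd k r = Nat.gcd w r := Nat.ModEq.gcd_eq hk1
      unfold Nat.Coprime
      rw [h4]
      exact hw
  · rcases hw2 with h | h
    · exact Or.inl h
    · right
      have h2 : k * s ≡ w * s [MOD r] := hk1.mul_right s
      have h3 : k * s % r = w * s % r := h2
      rw [h3]
      exact h

theorem dvd_total (N A : ℕ) (hN : 0 < N) : N ∣ A + (N - A % N) % N := by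
  apply (Nat.dvd_iff_mod_eq_zero).2
  rw [Nat.add_mod_mod]
  have h1 : A % N < N := Nat.mod_lt _ hN
  have h2 : A + (N - A % N) = N * (A / N + 1) := by
    have := Nat.div_add_mod A N
    rw [mul_add, mul_one]
    omega
  rw [h2, Nat.mul_mod_right]

/-- a scaled residue -/
theorem scaled (q p r k j x : ℕ) (hq : q = r * p) (h : k * j % p = 1) (hx : x < p) (hp : 1 < p) :
    (k * (r * (j * x % p))) % q = r * x := by
  have h1 : k * (r * (j * x % p)) = r * (k * (j * x % p)) := by ring
  rw [h1, hq, Nat.mul_mod_mul_left]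
  congr 1
  have h2 : k * (j * x % p) ≡ x [MOD p] := by
    have h4 : j * x % p ≡ j * x [MOD p] := Nat.mod_modEq _ _
    have h5 : k * j ≡ 1 [MOD p] := by
      unfold Nat.ModEq
      rw [h, Nat.mod_eq_of_lt hp]
    calc k * (j * x % p) ≡ k * (j * x) [MOD p] := h4.mul_left k
      _ = (k * j) * x := by ring
      _ ≡ 1 * x [MOD p] := h5.mul_right _
      _ = x := one_mul _
  rw [h2, Nat.mod_eq_of_lt hx]

theorem main : Pool.Agent.W528.HC.AS := by
  intro p r c f hp hr hne hc hcr hf m h a b ha hb hlt hm j s hj hjp hs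
  have hN : 0 < p * r := Nat.mul_pos hp.pos hr.pos
  have hco : r.Coprime p := (Nat.coprime_primes hr hp).2 hne.symm
  have hsum : ∀ F : Fin m ⊕ (Fin h ⊕ Unit) → ℕ, ∑ i, F i = (∑ i, F (Sum.inl i)) +
      ((∑ l, F (Sum.inr (Sum.inl l))) + F (Sum.inr (Sum.inr ()))) := by
    intro F
    rw [Fintype.sum_sum_type, Fintype.sum_sum_type]
    simp
  have el : ∀ i, expo2 p r a b j s (Sum.inl i) = r * (j * a i % p) := fun i => rfl
  have em : ∀ l, expo2 p r a b j s (Sum.inr (Sum.inl l)) = p * (s * b l % r) := fun l => rfl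
  have e1 : expo2 p r a b j s (Sum.inr (Sum.inr ())) =
      (p * r - ((∑ i, r * (j * a i % p)) + ∑ l, p * (s * b l % r)) % (p * r)) % (p * r) := rfl
  have hsa : ∑ i, a i < p := by
    have h1 : r * ∑ i, a i < r * p := by
      rw [mul_comm r p]; omega
    exact Nat.lt_of_mul_lt_mul_left h1
  have hsb : ∑ l, b l < r := by
    have h1 : p * ∑ l, b l < p * r := by omega
    exact Nat.lt_of_mul_lt_mul_left h1
  have hai : ∀ i, a i < p := by
    intro i
    have : a i ≤ ∑ i, a i := Finset.single_le_sum (f := a) (fun _ _ => Nat.zero_le _) (Finset.mem_univ i)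
    omega
  have hbl : ∀ l, b l < r := by
    intro l
    have : b l ≤ ∑ l, b l := Finset.single_le_sum (f := b) (fun _ _ => Nat.zero_le _) (Finset.mem_univ l)
    omega
  have hlt' : ∀ i, expo2 p r a b j s i < p * r := by
    rintro (i | l | u)
    · rw [el, mul_comm p r]
      exact Nat.mul_lt_mul_of_pos_left (Nat.mod_lt _ hp.pos) hr.pos
    · rw [em]
      exact Nat.mul_lt_mul_of_pos_left (Nat.mod_lt _ hr.pos) hp.pos
    · exact Nat.mod_lt _ hN
  have htot : p * r ∣ ∑ i, expo2 p r a b j s i := by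
    rw [hsum, e1, ← add_assoc]
    simp only [el, em]
    exact dvd_total _ _ hN
  refine ⟨hlt', ?_, htot, ?_⟩
  · rw [e1]
    set A := (∑ i, r * (j * a i % p)) + ∑ l, p * (s * b l % r) with hA
    have h1 : A % (p * r) ≠ 0 := by
      intro h0
      have h2 : p ∣ A := (dvd_mul_right p r).trans (Nat.dvd_of_mod_eq_zero h0)
      have h2' : p ∣ ∑ l, p * (s * b l % r) := by
        rw [← Finset.mul_sum]; exact dvd_mul_right _ _
      have h3 : p ∣ ∑ i, r * (j * a i % p) := (Nat.dvd_add_left h2').1 h2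
      rw [← Finset.mul_sum] at h3
      have h4 : p ∣ ∑ i, (j * a i % p) := hco.symm.dvd_of_dvd_mul_left h3
      have h5 : p ∣ ∑ i, j * a i := by
        apply Nat.dvd_of_mod_eq_zero
        rw [Finset.sum_nat_mod]
        exact Nat.mod_eq_zero_of_dvd h4
      rw [← Finset.mul_sum] at h5
      rcases hp.dvd_mul.1 h5 with h6 | h6
      · exact absurd (Nat.le_of_dvd hj h6) (by omega)
      · have h7 : 0 < ∑ i, a i := by
          have : a ⟨0, hm⟩ ≤ ∑ i, a i := Finset.single_le_sum (f := a) (fun _ _ => Nat.zero_le _) (Finset.mem_univ _)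
          have := ha ⟨0, hm⟩
          omega
        exact absurd (Nat.le_of_dvd h7 h6) (by omega)
    have h2 : A % (p * r) < p * r := Nat.mod_lt _ hN
    rw [Nat.mod_eq_of_lt (by omega)]
    omega
  · obtain ⟨j', hj'co, hj'j, hj's⟩ := choice p r hp hr hne j s hj hjp hs
    refine ⟨j', hj'co, ?_⟩
    have hcs : ∀ s0 : ℕ, c ^ s0 ≡ 1 [MOD (p * r)] := by
      intro s0
      have h1 : c ≡ 1 [MOD (p * r)] := ((Nat.modEq_iff_dvd' hc.one_lt.le).2 hcr).symm
      have h2 := h1.pow s0
      rw [one_pow] at h2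
      exact h2
    have hred : ∀ (e s0 : ℕ), (j' * e * c ^ s0) % (p * r) = (j' * e) % (p * r) := by
      intro e s0
      have h1 : j' * e * c ^ s0 ≡ j' * e * 1 [MOD (p * r)] := (hcs s0).mul_left _
      rw [mul_one] at h1
      exact h1
    have h1 : ∑ i, ∑ s0 ∈ range f, (j' * expo2 p r a b j s i * c ^ s0) % (p * r) =
        f * ∑ i, (j' * expo2 p r a b j s i) % (p * r) := by
      rw [Finset.mul_sum]
      apply Finset.sum_congr rfl
      intro i _
      simp only [hred]
      rw [Finset.sum_const, Finset.card_range, smul_eq_mul]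
    rw [h1, hsum]
    have h2 : ∀ i, (j' * expo2 p r a b j s (Sum.inl i)) % (p * r) = r * a i := by
      intro i
      rw [el]
      exact scaled _ p r j' j (a i) (mul_comm p r) hj'j (hai i) hp.one_lt
    have h3 : ∑ l, (j' * expo2 p r a b j s (Sum.inr (Sum.inl l))) % (p * r) ≤ p * ∑ l, b l := by
      rw [Finset.mul_sum]
      apply Finset.sum_le_sum
      intro l _
      rw [em]
      rcases hj's with h4 | h4
      · rw [h4]; simp
      · rw [scaled _ r p j' s (b l) rfl h4 (hbl l) hr.one_lt]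
    have h4 := Nat.mod_lt (j' * expo2 p r a b j s (Sum.inr (Sum.inr ()))) hN
    simp only [h2]
    rw [← Finset.mul_sum]
    have h5 : r * ∑ i, a i + (∑ l, (j' * expo2 p r a b j s (Sum.inr (Sum.inl l))) % (p * r) +
        (j' * expo2 p r a b j s (Sum.inr (Sum.inr ()))) % (p * r)) < (p * r) * 2 := by omega
    rw [mul_assoc f]
    exact Nat.mul_lt_mul_of_pos_left h5 hf

end Pool.Agent.W903.HC.AS
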